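import Pool.Agent.BoltzM.KK.Scale
import Pool.Agent.BoltzM.Dich.Abstract

/-! Point values on a ball are controlled by finitely many energy pairings. -/

set_option autoImplicit false

open MeasureTheory Pool.Agent.BoltzM.BoltzC Finset Filter Topology
open scoped ContDiff

noncomputable section

namespace Pool.Agent.BoltzM.KK

variable [Dim]

lemma exists_supp {α : Type*} [Zero α] {φ : E3 → α} (h : HasCompactSupport φ) :
    ∃ ρ, 1 ≤ ρ ∧ Supp ρ φ := by
  obtain ⟨ρ, hρ⟩ := h.isCompact.isBounded.subset_closedBall (0 : E3)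
  refine ⟨max ρ 1, le_max_right _ _, fun x hx => ?_⟩
  by_contra h0
  have := hρ (subset_tsupport φ h0)
  rw [mem_closedBall_zero_iff] at this
  linarith [le_max_left ρ 1]

/-- The space of compactly supported smooth hydrodynamic functions. -/
def DD : Submodule ℝ (E3 → SV) where
  carrier := {φ | InD φ}
  add_mem' := fun {φ ψ} h k => ⟨h.1.add k.1, h.2.1.add k.2.1, fun y => by
    rw [Pi.add_apply, map_add, h.2.2, k.2.2]⟩
  zero_mem' := ⟨Sm.const 0, HasCompactSupport.zero, fun _ => map_zero _⟩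
  smul_mem' := fun c φ h => ⟨h.1.const_smul c, h.2.1.comp_left (g := fun f => c • f) (smul_zero c),
    fun y => by rw [Pi.smul_apply, map_smul, h.2.2]⟩

variable {n : ℕ} {θ a : ℝ} {ν : BgD}

lemma integrable_WE {φ G : E3 → SV} (h : Sm φ) (hc : HasCompactSupport φ) (hG : Sm G) :
    Integrable fun y => wh a y * bb n θ (sh ν) φ G y := by
  obtain ⟨ρ, -, hρ⟩ := exists_supp hc
  exact Supp.integrable (ρ := ρ) (fun x hx => by rw [supp_bb hρ x hx, mul_zero])
    ((continuous_wh a).mul (continuous_bb (continuous_sh ν) h hG))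

lemma WE_comm (φ ψ : E3 → SV) : WE n θ ν a φ ψ = WE n θ ν a ψ φ := by
  simp only [WE, bb_comm (G := φ)]

lemma WE_nonneg (hθ : 0 ≤ θ) (φ : E3 → SV) : 0 ≤ WE n θ ν a φ φ :=
  integral_nonneg fun y => mul_nonneg (wh_pos a y).le (bb_nonneg hθ y)

lemma WE_add_left (φ φ' ψ : DD) :
    WE n θ ν a (φ + φ' : DD) ψ = WE n θ ν a φ ψ + WE n θ ν a φ' ψ := by
  rw [WE, WE, WE, ← integral_add (integrable_WE φ.2.1 φ.2.2.1 ψ.2.1)
    (integrable_WE φ'.2.1 φ'.2.2.1 ψ.2.1)]
  congr 1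
  funext y
  rw [← mul_add, ← bb_add_left φ.2.1 φ'.2.1]
  rfl

lemma WE_smul_left (c : ℝ) (φ ψ : DD) : WE n θ ν a (c • φ : DD) ψ = c * WE n θ ν a φ ψ := by
  rw [WE, WE, ← integral_const_mul]
  congr 1
  funext y
  rw [mul_left_comm, ← bb_smul_left φ.2.1]
  rfl

/-- The whole space energy as a bilinear form. -/
def WB (n : ℕ) (θ : ℝ) (ν : BgD) (a : ℝ) : DD →ₗ[ℝ] DD →ₗ[ℝ] ℝ :=
  LinearMap.mk₂ ℝ (fun φ ψ => WE n θ ν a φ ψ) WE_add_left WE_smul_left
    (fun φ ψ ψ' => by rw [WE_comm, WE_add_left, WE_comm φ.1, WE_comm φ.1])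
    fun c φ ψ => by rw [WE_comm, WE_smul_left, WE_comm φ.1]; rfl

lemma WB_apply (φ ψ : DD) : WB n θ ν a φ ψ = WE n θ ν a φ ψ := rfl

/-- Sobolev bound on a ball. -/
lemma sob_ball (n : ℕ) (ν : BgD) (a R : ℝ) (hθ : 0 < θ) (hθ1 : θ ≤ 1) : ∃ C : ℝ, 0 < C ∧
    ∀ Z : E3 → SV, Sm Z → HasCompactSupport Z → ∀ u : List Ix, u.length + dd ≤ n →
      ∀ x, ‖x‖ ≤ R → ip (dXw u Z x) (dXw u Z x) ≤ C * WE n θ ν a Z Z := by
  obtain ⟨w0, hw0, hw⟩ : ∃ w0 : ℝ, 0 < w0 ∧ ∀ y : E3, ‖y‖ ≤ |R| + dd → w0 ≤ wh a y := by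
    obtain ⟨y0, -, h0⟩ := (isCompact_closedBall (0 : E3) (|R| + dd)).exists_isMinOn
      ⟨0, by simp; positivity⟩ (continuous_wh a).continuousOn
    exact ⟨_, wh_pos a y0, fun y hy => h0 (by simpa using hy)⟩
  set c := (θ ^ n * w0)⁻¹ with hc
  have hc0 : 0 < c := by positivity
  refine ⟨3 ^ dd * (∑ j ∈ range (dd + 1), ∑ _w ∈ words j, c) + 1, by positivity, fun Z hZ hs u hu x hx => ?_⟩
  have hW := WE_nonneg (n := n) (ν := ν) (a := a) hθ.le Z
  have h1 := sobolev_cube ip continuous_ip ip_comm ip_self_nonneg (hZ.dXw u) one_pos x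
  rw [add_mul, one_mul]
  refine h1.trans (le_trans ?_ (le_add_of_nonneg_right hW))
  rw [mul_assoc, sum_mul]
  refine mul_le_mul_of_nonneg_left (sum_le_sum fun j hj => ?_) (by positivity)
  rw [one_pow, one_pow, div_one, one_mul, sum_mul]
  refine sum_le_sum fun w hw' => ?_
  have hl : (u ++ w).length ≤ n := by
    have := mem_range.1 hj
    rw [List.length_append, mem_words.1 hw']
    omega
  have hI := integrable_WE (n := n) (θ := θ) (ν := ν) (a := a) hZ hs hZ
  rw [← dXw_append]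
  calc _ ≤ ∫ y in cube x 1, c * (wh a y * bb n θ (sh ν) Z Z y) := by
        refine setIntegral_mono_on (integrableOn_cube ((hZ.dXw _).ip (hZ.dXw _)).cont _ _)
          (hI.const_mul c).integrableOn (measurableSet_cube _ _) fun y hy => ?_
        have h2 := cube_subset_closedBall x 1 hy
        rw [mem_closedBall_iff_norm] at h2
        have h3 : ‖y‖ ≤ |R| + dd := by
          have := norm_sub_norm_le y x
          simp only [abs_one, mul_one] at h2
          linarith [le_abs_self R]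
        have h4 := term_le_bb (n := n) (σ := sh ν) (G := Z) hθ.le (u ++ w) 0 hl y
        rw [nA_zero, add_zero] at h4
        have h5 : θ ^ n * 1 ≤ θ ^ (u ++ w).length * sh ν y ^ (2 * (u ++ w).length) :=
          mul_le_mul (pow_le_pow_of_le_one hθ.le hθ1 hl) (one_le_pow₀ (one_le_sh ν y))
            zero_le_one (by positivity)
        have h6 := (mul_le_mul_of_nonneg_right h5 (ip_self_nonneg _)).trans h4
        have h7 := mul_le_mul (hw y h3) h6 (mul_nonneg (by positivity) (ip_self_nonneg _))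
          (wh_pos a y).le
        rw [hc, le_inv_mul_iff₀ (by positivity)]
        linarith
    _ ≤ _ := by
        rw [integral_const_mul]
        exact mul_le_mul_of_nonneg_left (setIntegral_le_integral hI (Eventually.of_forall
          fun y => mul_nonneg (wh_pos a y).le (bb_nonneg hθ.le y))) hc0.le

lemma seg_le {f : E3 → ℝ} (hf : Dif f) {L R d : ℝ} (i : Ix) {x : E3}
    (hL : ∀ z, ‖z‖ ≤ R + 1 → |dX i f z| ≤ L) (hx : ‖x‖ ≤ R) (hd : |d| ≤ 1) :
    |f (x + d • ev i) - f x| ≤ L * |d| := by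
  have := seminorm_sub_le (normSeminorm ℝ ℝ) continuous_norm (γ := fun t => f (x + t • ev i))
    (γ' := fun t => dX i f (x + t • ev i)) (a := 0) (b := d) (C := L)
    (fun t _ => hf.line i x t) fun t ht => hL _ (by
      have h1 := Set.abs_sub_left_of_mem_uIcc ht
      have h2 := norm_add_le x (t • ev i)
      rw [norm_smul, norm_ev, Real.norm_eq_abs] at h2
      simp only [sub_zero] at h1
      linarith)
  simpa using this

lemma lip_ball {f : E3 → ℝ} (hf : Dif f) {L R h : ℝ} (hL0 : 0 ≤ L)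
    (hL : ∀ i z, ‖z‖ ≤ R + dd → |dX i f z| ≤ L) {x y : E3} (hx : ‖x‖ ≤ R) (hh : h ≤ 1)
    (hy : ‖y - x‖ ≤ h) : |f y - f x| ≤ dd * L * h := by
  have hd : ∀ i, |(y - x) i| ≤ h := box_of_norm hy
  have key : ∀ S : Finset Ix, ‖x + ∑ i ∈ S, (y - x) i • ev i‖ ≤ R + S.card ∧
      |f (x + ∑ i ∈ S, (y - x) i • ev i) - f x| ≤ S.card * L * h := fun S => by
    induction S using Finset.induction_on with
    | empty => simpa using hx
    | insert i S hi ih =>
      have hc : (S.card : ℝ) + 1 ≤ dd := by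
        have := card_le_univ (insert i S)
        rw [card_insert_of_notMem hi, card_Ix] at this
        exact_mod_cast this
      rw [sum_insert hi, card_insert_of_notMem hi, add_comm ((y - x) i • ev i), ← add_assoc]
      generalize x + ∑ i ∈ S, (y - x) i • ev i = z at *
      have h2 := norm_add_le z ((y - x) i • ev i)
      rw [norm_smul, norm_ev, Real.norm_eq_abs] at h2
      have h3 := (seg_le hf i (fun w hw => hL i w (by linarith)) ih.1 ((hd i).trans hh)).trans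
        (mul_le_mul_of_nonneg_left (hd i) hL0)
      have h4 := abs_sub_le (f (z + (y - x) i • ev i)) (f z) (f x)
      push_cast
      exact ⟨by linarith [hd i, ih.1], by linarith [ih.2]⟩
  have := (key univ).2
  rwa [sum_coord_ev, add_sub_cancel, card_univ, card_Ix] at this

lemma ip_eH_sq_le (b : Hx) (f : SV) : ip (eH b) f ^ 2 ≤ ip f f := by
  simpa [ip_eH] using ip_sq_le (eH b) f

/-- Point values on a ball against finitely many energy pairings. -/
lemma point_le (n : ℕ) (ν : BgD) (a R : ℝ) (hn : dd + 1 ≤ n) (hθ : 0 < θ) (hθ1 : θ ≤ 1) {ε : ℝ} (hε : 0 < ε) :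
    ∃ (m : ℕ) (φ : Fin m → DD), ∀ Z : DD, ∀ y, ‖y‖ ≤ R →
      ip (Z.1 y) (Z.1 y) ≤ ε * WE n θ ν a Z Z + 4 * ∑ i, WE n θ ν a (φ i) Z ^ 2 := by
  obtain ⟨C, hC, hS⟩ := sob_ball n ν a (R + dd) hθ hθ1
  have hd := dr_pos
  set h := min 1 (ε / (4 * (dd + 2) * dd ^ 2 * C)) with hh
  have hh0 : 0 < h := by positivity
  obtain ⟨t, ht, hfin, hcov⟩ := (isCompact_closedBall (0 : E3) R).finite_cover_balls hh0
  have := hfin.fintype
  let l : t × Hx → DD →ₗ[ℝ] ℝ := fun p =>
    (ip (eH p.2)).comp ((LinearMap.proj (p.1 : E3)).comp DD.subtype)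
  have hl : ∀ p (Z : DD), l p Z = ip (eH p.2) (Z.1 p.1) := fun _ _ => rfl
  set N := Fintype.card (t × Hx)
  have hap := fun p => Dich.riesz_approx (WB n θ ν a) (fun x y => WE_comm _ _)
    (fun x => WE_nonneg hθ.le _) (l p) C (fun Z => (ip_eH_sq_le _ _).trans
      (hS Z Z.2.1 Z.2.2.1 [] (by simp; omega) _ (by
        have := ht p.1.2
        rw [mem_closedBall_zero_iff] at this
        linarith))) (ε / (8 * (N + 1))) (by positivity)
  choose φ hφ using hap
  refine ⟨N, fun i => φ ((Fintype.equivFin _).symm i), fun Z y hy => ?_⟩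
  rw [Equiv.sum_comp (Fintype.equivFin (t × Hx)).symm fun p => WE n θ ν a (φ p) Z ^ 2]
  set W := WE n θ ν a Z Z with hW
  have hW0 : 0 ≤ W := WE_nonneg hθ.le _
  obtain ⟨z, hz, hyz⟩ := Set.mem_iUnion₂.1 (hcov (mem_closedBall_zero_iff.2 hy))
  have hzR := mem_closedBall_zero_iff.1 (ht hz)
  have h1 : ∀ b, ip (eH b) (Z.1 y) ^ 2 ≤ 2 * l (⟨z, hz⟩, b) Z ^ 2 + ε / (2 * (dd + 2)) * W := fun b => by
    have h2 := lip_ball (f := fun x => ipL (eH b) (Z.1 x)) (Z.2.1.clm _).dif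
      (L := √(C * W)) (Real.sqrt_nonneg _) (fun i w hw => by
        rw [dX_clm Z.2.1.dif]
        exact Real.abs_le_sqrt ((ip_eH_sq_le _ _).trans
          (hS Z Z.2.1 Z.2.2.1 [i] (by simp; omega) w hw))) hzR (min_le_left _ _)
      (mem_ball_iff_norm.1 hyz).le
    have h3 := pow_le_pow_left₀ (abs_nonneg _) h2 2
    rw [sq_abs, mul_pow, mul_pow, Real.sq_sqrt (by positivity)] at h3
    have h4 : h ^ 2 ≤ ε / (4 * (dd + 2) * dd ^ 2 * C) := by
      have h5 : h ≤ 1 := min_le_left _ _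
      have h6 : h ≤ ε / (4 * (dd + 2) * dd ^ 2 * C) := min_le_right _ _
      nlinarith
    have h5 : 2 * ((dd : ℝ) ^ 2 * (C * W)) * h ^ 2 ≤ ε / (2 * (dd + 2)) * W :=
      (mul_le_mul_of_nonneg_left h4 (by positivity)).trans (le_of_eq (by field_simp; ring))
    simp only [ipL_apply] at h3
    rw [hl]
    nlinarith [sq_nonneg (ip (eH b) (Z.1 y) - 2 * ip (eH b) (Z.1 z))]
  have h2 : ip (Z.1 y) (Z.1 y) ≤ 2 * ∑ b, l (⟨z, hz⟩, b) Z ^ 2 + ε / 2 * W := by
    rw [← Z.2.2.2 y, ip_PP_PP]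
    refine (sum_le_sum fun b _ => h1 b).trans (le_of_eq ?_)
    rw [sum_add_distrib, mul_sum]
    simp only [sum_const, card_univ, card_Hx, nsmul_eq_mul]
    push_cast
    field_simp
  have h3 : ∑ b, l (⟨z, hz⟩, b) Z ^ 2 ≤ ∑ p, l p Z ^ 2 := by
    rw [Fintype.sum_prod_type]
    exact single_le_sum (f := fun x => ∑ b, l (x, b) Z ^ 2)
      (fun _ _ => sum_nonneg fun _ _ => sq_nonneg _) (mem_univ _)
  have h4 : ∑ p, l p Z ^ 2 ≤ ∑ p, (2 * WE n θ ν a (φ p) Z ^ 2 + 2 * (ε / (8 * (N + 1)) * W)) :=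
    sum_le_sum fun p _ => by
      have h5 := hφ p Z
      rw [WB_apply, WB_apply] at h5
      nlinarith [sq_nonneg (l p Z - 2 * WE n θ ν a (φ p) Z)]
  rw [sum_add_distrib, ← mul_sum, sum_const, card_univ, nsmul_eq_mul] at h4
  have h5 : (N : ℝ) * (2 * (ε / (8 * (N + 1)) * W)) ≤ ε / 4 * W := by
    have h6 : (N : ℝ) * (2 * (ε / (8 * (N + 1)) * W)) = N / (N + 1) * (ε / 4 * W) := by
      field_simp
      ring
    rw [h6]
    exact mul_le_of_le_one_left (by positivity) (div_le_one_of_le₀ (by linarith) (by positivity))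
  linarith

lemma sm_of_contDiff {f : E3 → ℝ} (hf : ContDiff ℝ ∞ f) : Sm f := by
  refine smC_coind (fun g : Unit → E3 → ℝ => ∃ k : E3 → ℝ, ContDiff ℝ ∞ k ∧ g = fun _ => k) ?_
    ⟨f, hf, rfl⟩
  rintro g ⟨k, hk, rfl⟩
  refine ⟨hk.continuous.comp continuous_snd, fun i =>
    ⟨_, ⟨fun x => fderiv ℝ k x (ev i), (hk.fderiv_right (m := ∞) le_rfl).clm_apply contDiff_const,
      rfl⟩, fun _ x => HasDerivAt.hd ?_⟩⟩
  exact ((hk.differentiable (by simp)) x).hasFDerivAt.hasLineDerivAt (ev i)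

/-- Cut-off functions that are symbols of size one uniformly in the radius. -/
lemma exists_cut : ∃ K : ℕ → ℝ, ∀ R : ℝ, 1 ≤ R → ∃ χ : E3 → ℝ, Sm χ ∧ Supp (2 * R) χ ∧
    (∀ y, 0 ≤ χ y) ∧ (∀ y, ‖y‖ ≤ R → χ y = 1) ∧
    ∀ (w : List Ix) y, (2 + ‖y‖) ^ w.length * |dXw w χ y| ≤ K w.length := by
  let b : ContDiffBump (0 : E3) := ⟨1, 2, one_pos, one_lt_two⟩
  have hb : Sm b := sm_of_contDiff b.contDiff
  have hs : Supp 2 b := fun x hx => b.zero_of_le_dist (by simpa using hx.le)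
  have hM : ∀ w : List Ix, ∃ M, 0 ≤ M ∧ ∀ y, |dXw w b y| ≤ M := fun w => by
    obtain ⟨M, hM⟩ := (hb.dXw w).cont.bounded_above_of_compact_support (hs.dXw w).hasCompactSupport
    exact ⟨M, (norm_nonneg _).trans (hM 0), hM⟩
  choose M hM0 hM using hM
  refine ⟨fun j => 4 ^ j * ∑ w ∈ words j, M w, fun R hR => ?_⟩
  have hR0 : 0 < R := by linarith
  have hs' : Supp (2 * R) fun y => b (R⁻¹ • y) := by
    simpa using hs.scale (inv_pos.2 hR0)
  refine ⟨fun y => b (R⁻¹ • y), hb.scale _, hs', fun y => b.nonneg, fun y hy =>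
    b.one_of_mem_closedBall ?_, fun w y => ?_⟩
  · rw [mem_closedBall_zero_iff, norm_smul, Real.norm_eq_abs, abs_of_pos (inv_pos.2 hR0),
      inv_mul_le_iff₀ hR0]
    exact hy.trans (mul_one R).ge
  have h1 : M w ≤ ∑ u ∈ words w.length, M u :=
    single_le_sum (fun u _ => hM0 u) (mem_words.2 rfl)
  by_cases hy : ‖y‖ ≤ 2 * R
  · simp only [dXw_scale hb]
    rw [smul_eq_mul, abs_mul, abs_of_nonneg (by positivity), ← mul_assoc, ← mul_pow]
    refine mul_le_mul (pow_le_pow_left₀ (by positivity) ?_ _) ((hM w _).trans h1) (abs_nonneg _)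
      (by positivity)
    rw [mul_inv_le_iff₀ hR0]
    linarith
  · rw [hs'.dXw w y (not_le.1 hy), abs_zero, mul_zero]
    exact mul_nonneg (by positivity) ((hM0 w).trans h1)

end Pool.Agent.BoltzM.KK
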